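import Pool.Agent.Y92.ZX.FamAll

/-!
# MP_130685_nt: Zilber-Pink in `Y(1)^n` for the members of algebraic families of curves

`Y(1)^n` is identified with `ℂ^n` by the elliptic modular function `jj = j = E₄³ / Δ`. A special
subvariety of `Y(1)^n` of dimension `r` is given by a `SpecialVariety`: its points are the points
`x` with `x_i = const_i` for the constant coordinates, and `x_i = j (g_i z_l)` for the coordinates of
class `l`, `z_1, …, z_r` free in the upper half plane and `g_i` a fixed integral matrix of positive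
determinant. In the definition of special subvarieties the constants are values of `j` at CM points.
We allow also all constants which are integral over the ring generated by a given set `Γ`; in the
theorem `Γ` is the set of all elements of the number field `K` which are integral at the place `v`.

**Families of curves.** Let `F_t` be finitely many forms in the homogeneous coordinates
`(X_1, Z_1), …, (X_n, Z_n)` of `(P¹)^n` (the variables are `(i, false) = X_i` and `(i, true) = Z_i`,
and `x_i = X_i / Z_i`), whose coefficients are polynomials in the parameters `s_1, …, s_m` over the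
field of the algebraic numbers. They define an algebraic family of subschemes `V_s` of `(P¹)^n`. We
assume (`GoodOrigin F`) that

* `V_0` is integral: the ideals of `V_0` in the affine charts `Z_1 = … = Z_n = 1` and `X_a = 1`,
  `Z_i = 1` for `i ≠ a` are prime ideals; the coordinates `x_i` are not constant on `V_0`;
* for `i ≠ j` the ideal generated by the `F_t` contains a form
  `∑_{u ≤ a, v ≤ b} g_{uv} X_i ^ u Z_i ^ (a - u) X_j ^ v Z_j ^ (b - v)`, where the `g_{uv}` are
  polynomials in `s` with `g_{00}, g_{a0}, g_{0b}, g_{ab} ≠ 0` at `s = 0`, and where the form for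
  `s = 0` is not divisible by a form `X_i - c Z_i`. So the zeros and poles of `x_i` on `V_0` are
  different from those of `x_j`, and `V_0` is a curve (for `n ≥ 2`) which is covered by the charts.

**Theorem.** For each `W` there is a number `D`, which depends only on the family and on `W`, such that
the following holds for each number field `K ⊂ ℂ`, each prime `v` of `K` over a prime number
`p > D` which is unramified over `p`, all `s` in `K^m` with `|s_l|_v < 1` for all `l`, and all
`lam_1, …, lam_n` in `K` with `v (lam_i) = - w_i e`, where `1 ≤ w_i ≤ W` and `e > 0`. Let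
`C ⊂ Y(1)^n` be the set of all `(lam_1 y_1, …, lam_n y_n)`, `y ∈ V_s ∩ ℂ^n`. Then
* there are only finitely many points of `C` on special subvarieties of `Y(1)^n` of codimension at
  least two,
* each proper special subvariety of `Y(1)^n` contains only finitely many points of `C`.

There is no condition on the member `V_s` besides `|s|_v < 1` (it may be any curve with this
reduction, singular or reducible, of any genus, and it may be empty in `ℂ^n`). For example, for an
integral curve `V_0` the family of the translates `V_s = V_0 + s` (`m = n`) gives the curves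
`lam V_0 + mu` with `v (mu_i) > v (lam_i)` (`s_i = mu_i / lam_i`), and one can also deform all
coefficients of equations of `V_0`.
-/

namespace Pool.Agent.Results.MP_130685_nt.FamiliesOfCurves

open H294ZP UpperHalfPlane IsDedekindDomain NumberField

/-- A special subvariety of dimension `r` of `Y(1)^n`. The constant coordinates are those with
`cls i = none`. The allowed constants are the singular moduli and the numbers which are integral
over the ring generated by `Γ`. -/
structure SpecialVariety (Γ : Set ℂ) (n r : ℕ) where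
  cls : Fin n → Option (Fin r)
  surj : ∀ l : Fin r, ∃ i, cls i = some l
  mat : Fin n → Matrix (Fin 2) (Fin 2) ℤ
  det_pos : ∀ i, 0 < (mat i).det
  const : Fin n → ℂ
  allowed : ∀ i, (∃ τ : ℍ, IsCM τ ∧ const i = jj τ) ∨ IsIntegral (Algebra.adjoin ℤ Γ) (const i)

/-- The points of a special subvariety of `Y(1)^n`. -/
def SpecialVariety.locus {Γ : Set ℂ} {n r : ℕ} (Z : SpecialVariety Γ n r) : Set (Fin n → ℂ) :=
  {x | ∃ z : Fin r → ℍ, ∀ i, (Z.cls i = none → x i = Z.const i) ∧
    ∀ l, Z.cls i = some l → ∃ w : ℍ,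
      (w : ℂ) * (Z.mat i 1 0 * z l + Z.mat i 1 1) = Z.mat i 0 0 * z l + Z.mat i 0 1 ∧
      x i = jj w}

/-- The homogeneous coordinates of the point with affine coordinates `y` in the chart `c` of
`(P¹)^n`. In the chart `none` they are `X_i = y_i`, `Z_i = 1` for all `i`, in the chart `some a`
they are `X_a = 1`, `Z_a = y_a`, and `X_i = y_i`, `Z_i = 1` for `i ≠ a`. -/
def coord {A : Type} [CommRing A] {n : ℕ} (c : Option (Fin n)) (y : Fin n → A)
    (q : Fin n × Bool) : A :=
  if c = some q.1 then (if q.2 then y q.1 else 1) else (if q.2 then 1 else y q.1)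

/-- `F` is homogeneous in each pair of variables `(X_i, Z_i) = ((i, false), (i, true))`. -/
def Multihomogeneous {A : Type} [CommRing A] {n : ℕ} (F : MvPolynomial (Fin n × Bool) A) : Prop :=
  ∃ δ : Fin n → ℕ, ∀ m ∈ F.support, ∀ i, m (i, false) + m (i, true) = δ i

/-- The form `∑ g_{uv} X_i ^ u Z_i ^ (a - u) X_j ^ v Z_j ^ (b - v)`. -/
noncomputable def pairForm {A : Type} [CommRing A] {n : ℕ} (i j : Fin n) (a b : ℕ)
    (g : ℕ → ℕ → A) : MvPolynomial (Fin n × Bool) A :=
  ∑ u ∈ Finset.range (a + 1), ∑ v ∈ Finset.range (b + 1),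
    MvPolynomial.C (g u v) * MvPolynomial.X (i, false) ^ u * MvPolynomial.X (i, true) ^ (a - u) *
      MvPolynomial.X (j, false) ^ v * MvPolynomial.X (j, true) ^ (b - v)

/-- The ideal of `V_0` in the chart `c`. -/
noncomputable def chartIdeal {n m : ℕ} {κ : Type}
    (F : κ → MvPolynomial (Fin n × Bool) (MvPolynomial (Fin m) (algebraicClosure ℚ ℂ)))
    (c : Option (Fin n)) : Ideal (MvPolynomial (Fin n) (algebraicClosure ℚ ℂ)) :=
  Ideal.span (Set.range fun t => MvPolynomial.eval₂
    (MvPolynomial.C.comp (MvPolynomial.eval (0 : Fin m → algebraicClosure ℚ ℂ)))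
    (coord c MvPolynomial.X) (F t))

/-- The family is given by forms, and its member `V_0` is integral and in general position. -/
structure GoodOrigin {n m : ℕ} {κ : Type}
    (F : κ → MvPolynomial (Fin n × Bool) (MvPolynomial (Fin m) (algebraicClosure ℚ ℂ))) :
    Prop where
  form : ∀ t, Multihomogeneous (F t)
  prime : ∀ c, (chartIdeal F c).IsPrime
  nonconstant : ∀ (i : Fin n) (c : algebraicClosure ℚ ℂ),
    MvPolynomial.X i - MvPolynomial.C c ∉ chartIdeal F none
  general : ∀ i j : Fin n, i ≠ j → ∃ (a b : ℕ)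
    (g : ℕ → ℕ → MvPolynomial (Fin m) (algebraicClosure ℚ ℂ)),
    MvPolynomial.eval 0 (g 0 0) ≠ 0 ∧ MvPolynomial.eval 0 (g a 0) ≠ 0 ∧
    MvPolynomial.eval 0 (g 0 b) ≠ 0 ∧ MvPolynomial.eval 0 (g a b) ≠ 0 ∧
    (∀ c : algebraicClosure ℚ ℂ, ∃ v ≤ b,
      ∑ u ∈ Finset.range (a + 1), MvPolynomial.eval 0 (g u v) * c ^ u ≠ 0) ∧
    pairForm i j a b g ∈ Ideal.span (Set.range F)

/-- The set `C` of all `(lam_1 y_1, …, lam_n y_n)`, `y` in `V_s ∩ ℂ^n`. -/
def scaledMember {n m : ℕ} {κ : Type}
    (F : κ → MvPolynomial (Fin n × Bool) (MvPolynomial (Fin m) (algebraicClosure ℚ ℂ)))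
    (s : Fin m → ℂ) (lam : Fin n → ℂ) : Set (Fin n → ℂ) :=
  {x | ∃ y : Fin n → ℂ, (∀ t, MvPolynomial.eval₂
    (MvPolynomial.eval₂Hom (algebraMap (algebraicClosure ℚ ℂ) ℂ) s) (coord none y) (F t) = 0) ∧
    ∀ i, x i = lam i * y i}

/-- The elements of `K` which are integral at `v`. -/
def integralAt {K : Type} [Field K] [NumberField K] (σ : K →+* ℂ) (v : HeightOneSpectrum (𝓞 K)) :
    Set ℂ :=
  {z | ∃ x : K, v.valuation K x ≤ 1 ∧ σ x = z}

/-- Special subvarieties in the form used in the proof. -/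
def SpecialVariety.toSV {Γ : Set ℂ} {n r : ℕ} (Z : SpecialVariety Γ n r) :
    Pool.Agent.Y226.ZM.SV Γ n r where
  cls := Z.cls
  mat := Z.mat
  det_pos := Z.det_pos
  const := Z.const
  int := fun i => by
    rcases Z.allowed i with ⟨τ, hτ, h⟩ | h
    · rw [h]
      exact (singular_modulus_integral τ hτ).tower_top
    · exact h

/-- The Zilber-Pink conjecture in `Y(1)^n` for the members of algebraic families of curves which are
near a curve in general position, after scaling. -/
theorem result {n m : ℕ} {κ : Type} [Finite κ]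
    (F : κ → MvPolynomial (Fin n × Bool) (MvPolynomial (Fin m) (algebraicClosure ℚ ℂ)))
    (hF : GoodOrigin F) (W : ℕ) : ∃ D : ℕ, ∀ (K : Type) [Field K] [NumberField K] (σ : K →+* ℂ)
    (v : HeightOneSpectrum (𝓞 K)) (p : ℕ), p.Prime → D < p → (p : 𝓞 K) ∈ v.asIdeal →
    (p : 𝓞 K) ∉ v.asIdeal ^ 2 → ∀ s : Fin m → K, (∀ l, v.valuation K (s l) < 1) →
    ∀ (lam : Fin n → K) (e : ℕ) (w : Fin n → ℕ), 0 < e →
    (∀ i, 0 < w i ∧ w i ≤ W ∧ v.valuation K (lam i) = WithZero.exp ((w i * e : ℕ) : ℤ)) →
    {x | x ∈ scaledMember F (fun l => σ (s l)) (fun i => σ (lam i)) ∧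
      ∃ (r : ℕ) (Z : SpecialVariety (integralAt σ v) n r), r + 2 ≤ n ∧ x ∈ Z.locus}.Finite ∧
    ∀ (r : ℕ) (Z : SpecialVariety (integralAt σ v) n r), r < n →
      {x | x ∈ scaledMember F (fun l => σ (s l)) (fun i => σ (lam i)) ∧ x ∈ Z.locus}.Finite := by
  classical
  have hgen : ∀ q : Fin n × Fin n, ∃ (a b : ℕ)
      (g : ℕ → ℕ → MvPolynomial (Fin m) (algebraicClosure ℚ ℂ)), q.1 ≠ q.2 →
      MvPolynomial.eval 0 (g 0 0) ≠ 0 ∧ MvPolynomial.eval 0 (g a 0) ≠ 0 ∧
      MvPolynomial.eval 0 (g 0 b) ≠ 0 ∧ MvPolynomial.eval 0 (g a b) ≠ 0 ∧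
      (∀ c : algebraicClosure ℚ ℂ, ∃ v ≤ b,
        ∑ u ∈ Finset.range (a + 1), MvPolynomial.eval 0 (g u v) * c ^ u ≠ 0) ∧
      pairForm q.1 q.2 a b g ∈ Ideal.span (Set.range F) := by
    intro q
    by_cases h : q.1 = q.2
    · exact ⟨0, 0, 0, fun h' => absurd h h'⟩
    · obtain ⟨a, b, g, h1⟩ := hF.general q.1 q.2 h
      exact ⟨a, b, g, fun _ => h1⟩
  choose a b g hg using hgen
  obtain ⟨D, hD⟩ := Pool.Agent.Y92.ZX.fam_all n m W κ (∑ q, (a q + b q)) F
    ⟨hF.form, hF.prime, hF.nonconstant, fun i j hij => by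
      obtain ⟨h1, h2, h3, h4, h5, h6⟩ := hg (i, j) hij
      have h7 : a (i, j) + b (i, j) ≤ ∑ q, (a q + b q) :=
        Finset.single_le_sum (f := fun q => a q + b q) (fun _ _ => Nat.zero_le _)
          (Finset.mem_univ (i, j))
      exact ⟨a (i, j), b (i, j), g (i, j), by omega, by omega, h1, h2, h3, h4, h5, h6⟩⟩
  refine ⟨D, fun K _ _ σ v p hp hDp hpv hpv2 s hs lam e w he hw => ?_⟩
  obtain ⟨h1, h2⟩ := hD K σ v p hp hDp hpv hpv2 s hs lam e w he hw
  refine ⟨h1.subset ?_, fun r Z hr => (h2 r Z.toSV hr).subset ?_⟩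
  · rintro x ⟨⟨y, hy, hx⟩, r, Z, hr, hZ⟩
    exact ⟨⟨y, hy, hx⟩, r, Z.toSV, hr, hZ⟩
  · rintro x ⟨⟨y, hy, hx⟩, hZ⟩
    exact ⟨⟨y, hy, hx⟩, hZ⟩

end Pool.Agent.Results.MP_130685_nt.FamiliesOfCurves
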