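import Pool.Agent.Y199.SG.ZPW

/-!
# MP_130685_nt: Zilber-Pink in `Y(1)^n` for all but finitely many members of families over an elliptic
curve

The Shimura variety `Y(1)^n` is identified with `ℂ^n` by the elliptic modular function
`jj = j = E₄³ / Δ`.

**The base.** Let `a, b` be algebraic numbers with `4 a³ + 27 b² ≠ 0` and let `Curve a b` be the set of
the affine points `P = (x, y)` of the elliptic curve `y² = x³ + a x + b`. At a point `Q` of it the
function `loc Q`, which is `x - x(Q)` if `y(Q) ≠ 0` and `y` if `y(Q) = 0`, is a local parameter, and a
function `c ∈ ℂ[x, y]` has the order `e` at `Q` if `c = loc^e g / h` on the curve with polynomials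
`g, h` in `x, y` which do not vanish at `Q` and whose coefficients are algebraic over a given
countable field `K ⊂ ℂ` (`HasOrder`). Every function with coefficients algebraic over `K` which does
not vanish identically on the curve has an order at every algebraic point `Q`.

**Families.** We consider families of subsets `X_P` of `Y(1)^n` over the elliptic curve, given by
* a family `B_t ⊆ P^N` of projective algebraic sets, defined by forms `G k` with coefficients in
  `K[t]`, quotients `f_i = A_i / B_i` of forms of the same degree `d_i` with coefficients in `K[t]`,
  and a rational function `t = φ(P) = u(P) / v(P)` on the elliptic curve (so `B_t` can be a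
  fixed variety, or the pullback by `φ` of any one-parameter family),
* functions `s_i` integral over `K[j]`, `R_i (s_i, j) = 0` with `R_i` monic in the first variable
  (level one: `R_i = S - J`, `s_i = j`; in general modular functions of any level without poles
  in the upper half plane), and functions `c_i ∈ ℂ[x, y]` on the elliptic curve:
`X_P = {x | ∃ y ∈ B_t, ∃ s, ∀ i, R_i (s_i, x_i) = 0, c_i (P) s_i = A_i (y) / B_i (y), t = φ(P)}`
(`member`), the image of a family of subvarieties of a product of modular curves of any levels. For
example: the translates `(c_1(P)⁻¹ y_1, …, c_n(P)⁻¹ y_n)`, `y ∈ V`, of a fixed affine variety `V` by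
the values of `n` functions on the elliptic curve.

Let `Q_1, …, Q_M` be points of the elliptic curve with algebraic coordinates, `v(Q_l) ≠ 0`. The family
degenerates at the `Q_l` in the following sense:
* no point of `B_t` lies on `m + 1` of the divisors of the `f_i`, for `t = φ(Q_l)`, and
* the `c_i` have zeros at `Q_l`, of orders `e_li > 0`, and these orders are independent:
  `q e_li e_lj e_l'i e_l'j` is not a square for `l ≠ l'`, `i ≠ j`, `1 ≤ q ≤ T^8`, where `T` bounds the
  degrees of the `R_i` (`T = 1` for level one).

**Theorem.** If `M ≥ n (n - 1) / 2 + 1` then for every number field `E` and for all but finitely many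
of the points `P` of the elliptic curve over `E` the set `X_P` has no atypical intersection with
special subvarieties `Z` of `Y(1)^n`: every irreducible closed subset of `X_P ∩ Z` has dimension at
most `dim Z + m - n`, and the same bound holds for the transcendence degrees of the points of
`X_P ∩ Z` over `K`. The constant coordinates of `Z` can be special points or integral over the
ring generated by any given finite set `Γ` of numbers algebraic over `K`.

In the results for one-parameter families over the projective line and parameters `t` in a number
field, or in a finitely generated field, two more degenerate members are necessary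
(`RationalParameters` among the starting files of `MP_d83ecd_ag`, its sister
`FinitelyGeneratedFields`), because there are infinitely many `t` which are near to neither of two
given points at the places outside a finite set; the result `IntegralParameters` of this problem
has the same number of degenerate members as here but few, not finitely many, exceptional rational
parameters. Here the number `n (n - 1) / 2 + 1` is that of the local criterion.

The proof combines the local criterion (file `Y199/SG/ZPZ`, after helper910, helper152 and the
starting files) with Siegel's theorem: all but finitely many points `P` over `E` are near to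
`Q_l` at some place with a large residue characteristic, for all `l`, since otherwise `P - Q_l` is an
integral point of the elliptic curve over a fixed ring of `S`-integers. Siegel's theorem over number
fields is proved in the file `Y199/SG/Siegel`.
-/

set_option autoImplicit false

namespace Pool.Agent.Results.MP_130685_nt.FamiliesOverEllipticCurves

open MvPolynomial Pool.Agent.Y199.SG.ZPZ
open Pool.Agent.Y199.SG.ZPY (SpecialVariety NoAtypical evalAt OnB InGeneralPosition valueAt)

/-- **Zilber-Pink in `Y(1)^n` for families over an elliptic curve**: all but finitely many of the members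
over the points over a number field have no atypical intersection with special subvarieties. -/
theorem result (K : Subfield ℂ) [Countable K] (κ : Type) [Finite κ] (N n m M T : ℕ)
    (G : κ → MvPolynomial (Fin (N + 1)) (Polynomial K)) (hG : ∀ k, ∃ e, (G k).IsHomogeneous e)
    (A B : Fin n → MvPolynomial (Fin (N + 1)) (Polynomial K)) (δ : Fin n → ℕ)
    (hA : ∀ i, (A i).IsHomogeneous (δ i)) (hB : ∀ i, (B i).IsHomogeneous (δ i))
    (R : Fin n → Polynomial (Polynomial K)) (hR : ∀ i, (R i).Monic)
    (hT : ∀ i u w, ((R i).coeff u).coeff w ≠ 0 → u ≤ T ∧ w ≤ T)
    (a b : ℂ) (ha : IsAlgebraic ℚ a) (hb : IsAlgebraic ℚ b) (hab : 4 * a ^ 3 + 27 * b ^ 2 ≠ 0)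
    (u v : MvPolynomial (Fin 2) ℂ) (hu : ∀ d, IsAlgebraic K (u.coeff d))
    (hv : ∀ d, IsAlgebraic K (v.coeff d))
    (Q : Fin M → Fin 2 → ℂ) (hQ : ∀ l, Q l ∈ Curve a b) (hQa : ∀ l i, IsAlgebraic ℚ (Q l i))
    (hvQ : ∀ l, eval (Q l) v ≠ 0) (hM : n * (n - 1) / 2 + 1 ≤ M)
    (c : Fin n → MvPolynomial (Fin 2) ℂ) (e : Fin M → Fin n → ℕ)
    (he : ∀ l i, HasOrder K a b (Q l) (c i) (e l i)) (hind : IndependentOrders T e)
    (hpos : ∀ l, InGeneralPosition (value u v (Q l)) m G A B)
    (Γ : Finset ℂ) (hΓ : ∀ γ ∈ Γ, IsAlgebraic K γ) (E : IntermediateField ℚ ℂ)
    [FiniteDimensional ℚ E] :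
    {P : Fin 2 → ℂ | P ∈ Curve a b ∧ (∀ i, P i ∈ E) ∧
      ¬ NoAtypical (algebraMap (Algebra.adjoin ℤ (Γ : Set ℂ)) ℂ) K m
        (member (value u v P) (fun i => eval P (c i)) G A B R)}.Finite := by
  obtain ⟨W, hW⟩ := core K κ N n m M T G hG A B δ hA hB R hR hT a b
    ha.isIntegral.tower_top.isAlgebraic u v hu hv hb.isIntegral.tower_top.isAlgebraic Q hQ
    (fun l i => (hQa l i).isIntegral.tower_top.isAlgebraic) hvQ c e he hind hpos Γ hΓ
  refine (near_all a b ha hb hab Q hQ hQa W E).subset ?_
  rintro P ⟨hP, hPE, hbad⟩
  refine ⟨hP, hPE, fun hnear => hbad ?_⟩
  refine (hW P hP (fun i => alg_of_mem K E _ (hPE i)) hnear).1 ?_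
  rw [Nat.choose_two_right]
  exact hM

end Pool.Agent.Results.MP_130685_nt.FamiliesOverEllipticCurves
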