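import Pool.Agent.Y226.ZR.Rand

/-!
# MP_130685_nt: Zilber-Pink for one hundred percent of the rational curves `x_i = P_i / (m Q_i)`

`Y(1)^n` is identified with `ℂ^n` by the elliptic modular function `jj = j = E₄³ / Δ`. A special
subvariety of `Y(1)^n` of dimension `r` is given by a `SpecialVariety`: its points are the points
`x` with `x_i = const_i` for the constant coordinates, and `x_i = j (g_i z_l)` for the coordinates of
class `l`, `z_1, …, z_r` free in the upper half plane and `g_i` a fixed integral matrix of positive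
determinant. In the definition of special subvarieties the constants are values of `j` at CM points
(solutions of `Φ_N (x_i, x_i) = 0`). We allow also all constants which are integral over the ring
generated by a finite set `Γ` of algebraic numbers.

Let `n ≥ 0` and `d ≥ 1`. An integer `m` and a vector `c` of integers (the coefficients of the
forms `P_i (s, t)`, `Q_i (s, t)` of degree `d`, `i = 1, …, n`) give the rational curve `V (m, c)` in
`Y(1)^n` with the parametrization `x_i = P_i (s, t) / (m Q_i (s, t))`, `(s : t) ∈ ℙ^1` (`curve`; it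
is given by the equations `m Q_i (s, t) x_i = P_i (s, t)`, `(s, t) ≠ (0, 0)`).

Theorem: for all `ε > 0` there are `G` and `H₀` such that for all `H ≥ H₀`, for all `(m, c)` in the
box `|m| ≤ H, |c_a| ≤ H`, with at most `ε (2 H + 1)^(1 + 2 n (d + 1))` exceptions,

* `V (m, c)` has at most `G` points which are on special subvarieties of codimension at least two
  (the atypical intersections),
* all these points are on the special subvarieties defined by an isogeny of degree at most `G`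
  between two of the coordinates, so that one finite set of proper special subvarieties of `Y(1)^n`
  covers the atypical intersections of all these curves,
* `V (m, c)` is not contained in a proper special subvariety.

In particular, the set of all `(m, c)` for which the Zilber-Pink conjecture holds for `V (m, c)` has
density one.
-/

namespace Pool.Agent.Results.MP_130685_nt.RandomRationalCurves

open H294ZP UpperHalfPlane

/-- A special subvariety of dimension `r` of `Y(1)^n`. The constant coordinates are those with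
`cls i = none`. The allowed constants are the singular moduli and the numbers which are integral
over the ring generated by `Γ`. -/
structure SpecialVariety (Γ : Set ℂ) (n r : ℕ) where
  cls : Fin n → Option (Fin r)
  surj : ∀ l : Fin r, ∃ i, cls i = some l
  mat : Fin n → Matrix (Fin 2) (Fin 2) ℤ
  det_pos : ∀ i, 0 < (mat i).det
  const : Fin n → ℂ
  allowed : ∀ i, (∃ τ : ℍ, IsCM τ ∧ const i = jj τ) ∨ IsIntegral (Algebra.adjoin ℤ Γ) (const i)

/-- The points of a special subvariety of `Y(1)^n`. -/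
def SpecialVariety.locus {Γ : Set ℂ} {n r : ℕ} (Z : SpecialVariety Γ n r) : Set (Fin n → ℂ) :=
  {x | ∃ z : Fin r → ℍ, ∀ i, (Z.cls i = none → x i = Z.const i) ∧
    ∀ l, Z.cls i = some l → ∃ w : ℍ,
      (w : ℂ) * (Z.mat i 1 0 * z l + Z.mat i 1 1) = Z.mat i 0 0 * z l + Z.mat i 0 1 ∧
      x i = jj w}

/-- The coefficient vectors: `c (i, 0, k)` is the coefficient of `s^k t^(d - k)` in the form `P_i`,
and `c (i, 1, k)` the coefficient in the form `Q_i`. -/
abbrev Coeffs (n d : ℕ) : Type := Fin n × Fin 2 × Fin (d + 1) → ℤ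

/-- The value at `(s, t)` of the form `P_i` (`l = 0`) or `Q_i` (`l = 1`) of degree `d`. -/
noncomputable def form {n d : ℕ} (c : Coeffs n d) (i : Fin n) (l : Fin 2) (s t : ℂ) : ℂ :=
  ∑ k : Fin (d + 1), (c (i, l, k) : ℂ) * s ^ (k : ℕ) * t ^ (d - (k : ℕ))

/-- The rational curve with the parametrization `x_i = P_i (s, t) / (m Q_i (s, t))`. -/
def curve {n d : ℕ} (m : ℤ) (c : Coeffs n d) : Set (Fin n → ℂ) :=
  {x | ∃ s t : ℂ, (s ≠ 0 ∨ t ≠ 0) ∧ ∀ i, (m : ℂ) * form c i 1 s t * x i = form c i 0 s t}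

/-- The points of `S` on special subvarieties of codimension at least two. -/
def atypical (Γ : Set ℂ) {n : ℕ} (S : Set (Fin n → ℂ)) : Set (Fin n → ℂ) :=
  {x | x ∈ S ∧ ∃ (r : ℕ) (Z : SpecialVariety Γ n r), r + 2 ≤ n ∧ x ∈ Z.locus}

/-- `x` and `x'` are the `j`-invariants of elliptic curves which are connected by an isogeny of
degree `N`. -/
def Isogenous (N : ℕ) (x x' : ℂ) : Prop :=
  ∃ (τ τ' : ℍ) (g : Matrix (Fin 2) (Fin 2) ℤ), g.det = N ∧
    (τ' : ℂ) * (g 1 0 * τ + g 1 1) = g 0 0 * τ + g 0 1 ∧ x = jj τ ∧ x' = jj τ'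

/-- Special subvarieties in the form used in the proof. -/
def SpecialVariety.toSV {Γ : Set ℂ} {n r : ℕ} (Z : SpecialVariety Γ n r) :
    Pool.Agent.Y226.ZM.SV Γ n r where
  cls := Z.cls
  mat := Z.mat
  det_pos := Z.det_pos
  const := Z.const
  int := fun i => by
    rcases Z.allowed i with ⟨τ, hτ, h⟩ | h
    · rw [h]
      exact (singular_modulus_integral τ hτ).tower_top
    · exact h

theorem result (n d : ℕ) (hd : 0 < d) (Γ : Finset ℂ) (hΓ : ∀ γ ∈ Γ, IsAlgebraic ℚ γ)
    (ε : ℝ) (hε : 0 < ε) : ∃ G H₀ : ℕ, ∀ H : ℕ, H₀ ≤ H →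
      (1 - ε) * (2 * H + 1) ^ (1 + 2 * n * (d + 1)) ≤
        ({q : ℤ × Coeffs n d | |q.1| ≤ H ∧ (∀ a, |q.2 a| ≤ H) ∧
          (atypical Γ (curve q.1 q.2)).Finite ∧ (atypical Γ (curve q.1 q.2)).ncard ≤ G ∧
          (∀ x ∈ atypical Γ (curve q.1 q.2),
            ∃ j l : Fin n, j ≠ l ∧ ∃ N : ℕ, 0 < N ∧ N ≤ G ∧ Isogenous N (x j) (x l)) ∧
          ∀ (r : ℕ) (Z : SpecialVariety Γ n r), r < n → ¬ curve q.1 q.2 ⊆ Z.locus}.ncard : ℝ) := by
  obtain ⟨G, H₀, hG⟩ := Pool.Agent.Y226.ZR.rand_main n d hd Γ hΓ ε hε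
  refine ⟨G, H₀, fun H hH => (hG H hH).trans ?_⟩
  have hfin : {q : ℤ × Coeffs n d | |q.1| ≤ (H : ℤ) ∧ ∀ a, |q.2 a| ≤ (H : ℤ)}.Finite := by
    refine (Finset.finite_toSet ((Finset.Icc (-(H : ℤ)) H) ×ˢ
      Fintype.piFinset fun _ : Fin n × Fin 2 × Fin (d + 1) => Finset.Icc (-(H : ℤ)) H)).subset ?_
    rintro q ⟨h1, h2⟩
    rw [Finset.mem_coe, Finset.mem_product, Fintype.mem_piFinset, Finset.mem_Icc]
    exact ⟨abs_le.1 h1, fun a => Finset.mem_Icc.2 (abs_le.1 (h2 a))⟩
  refine Nat.cast_le.2 (Set.ncard_le_ncard ?_ (hfin.subset fun q hq => ⟨hq.1, hq.2.1⟩))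
  rintro q ⟨hq1, hq2, h1, h2, h3, h4⟩
  have hsub : atypical Γ (curve q.1 q.2) ⊆
      {x | x ∈ Pool.Agent.Y226.ZR.crvR q.1 q.2 ∧
        ∃ (r : ℕ) (Z : Pool.Agent.Y226.ZM.SV (Γ : Set ℂ) n r), r + 2 ≤ n ∧ x ∈ Z.locus} := by
    rintro x ⟨hx, r, Z, hr, hZ⟩
    exact ⟨hx, r, Z.toSV, hr, hZ⟩
  refine ⟨hq1, hq2, h2.subset hsub, (Set.ncard_le_ncard hsub h2).trans h3, ?_, ?_⟩
  · rintro x ⟨hx, r, Z, hr, hZ⟩
    obtain ⟨j, l, hjl, N, hN0, hN, τ, τ', a, b, c, d, hdet, hτ, hxj, hxl⟩ :=
      h1 x hx r Z.toSV hr hZ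
    refine ⟨j, l, hjl, N, hN0, hN, τ, τ', !![a, b; c, d], ?_, ?_, hxj, hxl⟩
    · rw [Matrix.det_fin_two_of]
      exact hdet
    · simpa using hτ
  · intro r Z hr hsub'
    exact h4 r Z.toSV hr hsub'

end Pool.Agent.Results.MP_130685_nt.RandomRationalCurves
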